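import Mathlib
import Pool.Agent.Results.MP_b48dd4_gt.FlatVertices
import Pool.Agent.TH603.GN.Global

set_option autoImplicit false

noncomputable section
open scoped Classical

namespace Pool.Agent.Results.MP_b48dd4_gt.GromovBound

open Pool.Agent.Results.MP_b48dd4_gt.FlatVertices
open Pool.Agent.W644.GN Pool.Agent.TH603.GN

variable {G : GeodesicNet} {ζ : ℂ} {hζ : ζ ≠ 0}
  {hgen : ∀ a ∈ G.V, ∀ b ∈ G.V, (ζ * a).im = (ζ * b).im → a = b}

/-- slope from the direction -/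
theorem sl_dir (v w : {v : ℂ // v ∈ G.V}) (h : v.1 ≠ w.1) :
    sl (cfg G ζ hζ hgen) v w = (ζ * dir v.1 w.1).re / (ζ * dir v.1 w.1).im := by
  have h1 := eq_add_dir h
  have hr : ‖w.1 - v.1‖ ≠ 0 := norm_ne_zero_iff.2 (sub_ne_zero.2 h.symm)
  have hx : (ζ * w.1).re - (ζ * v.1).re = ‖w.1 - v.1‖ * (ζ * dir v.1 w.1).re := by
    rw [← Complex.sub_re, ← mul_sub, ← Complex.re_ofReal_mul]
    congr 1
    linear_combination ζ * h1
  have hy : (ζ * w.1).im - (ζ * v.1).im = ‖w.1 - v.1‖ * (ζ * dir v.1 w.1).im := by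
    rw [← Complex.sub_im, ← mul_sub, ← Complex.im_ofReal_mul]
    congr 1
    linear_combination ζ * h1
  change ((ζ * w.1).re - (ζ * v.1).re) / ((ζ * w.1).im - (ζ * v.1).im) = _
  rw [hx, hy, mul_div_mul_left _ _ hr]

theorem up_iff (v w : {v : ℂ // v ∈ G.V}) (h : v.1 ≠ w.1) :
    (ζ * v.1).im < (ζ * w.1).im ↔ 0 < (ζ * dir v.1 w.1).im := by
  have h1 := eq_add_dir h
  have hr : 0 < ‖w.1 - v.1‖ := norm_pos_iff.2 (sub_ne_zero.2 h.symm)
  have hy : (ζ * w.1).im - (ζ * v.1).im = ‖w.1 - v.1‖ * (ζ * dir v.1 w.1).im := by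
    rw [← Complex.sub_im, ← mul_sub, ← Complex.im_ofReal_mul]
    congr 1
    linear_combination ζ * h1
  rw [← sub_pos, hy]
  exact mul_pos_iff_of_pos_left hr

/-- the crossings, as vertices of the configuration -/
def XS (G : GeodesicNet) : Finset {v : ℂ // v ∈ G.V} :=
  Finset.univ.filter (fun v => v.1 ∈ G.crossings)

theorem crs_of_crossing {v : {v : ℂ // v ∈ G.V}} (hv : v.1 ∈ G.crossings) :
    Crs (cfg G ζ hζ hgen) v := by
  intro f
  have hA : ∀ x ∈ G.neighbors v.1, G.Adj v.1 x := fun x hx => (Finset.mem_filter.1 hx).2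
  have hmem : ∀ b : {v : ℂ // v ∈ G.V}, G.Adj v.1 b.1 → b.1 ∈ G.neighbors v.1 := fun b hb =>
    Finset.mem_filter.2 ⟨b.2, hb⟩
  choose anti hanti1 hanti2 using (fun (w : ℂ) (hw : w ∈ G.neighbors v.1) => antipodal G hv hw)
  have hV : ∀ w ∈ G.neighbors v.1, w ∈ G.V := fun w hw => (Finset.mem_filter.1 hw).1
  have hout : ∀ b, b ∈ outA (cfg G ζ hζ hgen) v → b.1 ∈ G.neighbors v.1 := fun b hb =>
    hmem b ((W_ne G ζ v b).1 (mem_outA.1 hb)).1
  refine Finset.sum_bij (fun b hb => (⟨anti b.1 (hout b hb), hV _ (hanti1 _ _)⟩ :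
    {v : ℂ // v ∈ G.V})) ?_ ?_ ?_ ?_
  · intro b hb
    rw [mem_insA, W_ne]
    have h1 := (W_ne G ζ v b).1 (mem_outA.1 hb)
    have hadj := hA _ (hanti1 _ (hout b hb))
    refine ⟨G.symm _ _ hadj, ?_⟩
    have hne := (G.edge_ends _ _ h1.1).2.2
    have hne' := (G.edge_ends _ _ hadj).2.2
    have h2 := (up_iff (ζ := ζ) v b hne).1 h1.2
    by_contra hcon
    push Not at hcon
    have h3 : (ζ * v.1).im < (ζ * anti b.1 (hout b hb)).im := by
      refine lt_of_le_of_ne hcon ?_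
      intro h4
      exact hne' (hgen _ v.2 _ (hV _ (hanti1 _ _)) h4)
    have h4 := (up_iff (ζ := ζ) v ⟨anti b.1 (hout b hb), hV _ (hanti1 _ _)⟩ hne').1 h3
    simp only at h4
    rw [hanti2 b.1 (hout b hb), mul_neg, Complex.neg_im] at h4
    linarith
  · intro b hb b' hb' h
    have h1 : anti b.1 (hout b hb) = anti b'.1 (hout b' hb') := congrArg Subtype.val h
    have h2 := hanti2 b.1 (hout b hb)
    have h3 := hanti2 b'.1 (hout b' hb')
    rw [h1, h3, neg_inj] at h2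
    exact Subtype.ext (dir_inj G (hA _ (hout b hb)) (hA _ (hout b' hb')) h2.symm)
  · intro a ha
    have h1 := (W_ne G ζ a v).1 (mem_insA.1 ha)
    have haN : a.1 ∈ G.neighbors v.1 := hmem a (G.symm _ _ h1.1)
    have hne := (G.edge_ends _ _ h1.1).2.2
    have hadj := hA _ (hanti1 _ haN)
    have hne' := (G.edge_ends _ _ hadj).2.2
    have hdown : (ζ * dir v.1 a.1).im < 0 := by
      have h2 := (up_iff (ζ := ζ) a v hne).1 h1.2
      rw [dir_comm, mul_neg, Complex.neg_im] at h2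
      linarith
    have hup : 0 < (ζ * dir v.1 (anti a.1 haN)).im := by
      rw [hanti2, mul_neg, Complex.neg_im]; linarith
    have hW : (cfg G ζ hζ hgen).W v ⟨anti a.1 haN, hV _ (hanti1 _ _)⟩ ≠ 0 := by
      rw [W_ne]
      exact ⟨hadj, (up_iff (ζ := ζ) v ⟨anti a.1 haN, hV _ (hanti1 _ _)⟩ hne').2 hup⟩
    refine ⟨⟨anti a.1 haN, hV _ (hanti1 _ _)⟩, mem_outA.2 hW, ?_⟩
    apply Subtype.ext
    simp only
    have h5 := hanti2 (anti a.1 haN) (hout _ (mem_outA.2 hW))
    rw [hanti2 a.1 haN, neg_neg] at h5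
    exact dir_inj G (hA _ (hanti1 _ _)) (hA _ haN) h5
  · intro b hb
    have h1 := (W_ne G ζ v b).1 (mem_outA.1 hb)
    have hadj := hA _ (hanti1 _ (hout b hb))
    have hne := (G.edge_ends _ _ h1.1).2.2
    have hne' := (G.edge_ends _ _ hadj).2.2
    rw [sl_dir v b hne, sl_dir (⟨anti b.1 (hout b hb), hV _ (hanti1 _ _)⟩) v hne'.symm]
    simp only
    rw [dir_comm v.1 (anti b.1 _), hanti2, neg_neg]

theorem card_outA_insA (v : {v : ℂ // v ∈ G.V}) :
    (outA (cfg G ζ hζ hgen) v).card + (insA (cfg G ζ hζ hgen) v).card =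
      (G.neighbors v.1).card := by
  have h := card_eq (G := G) (ζ := ζ) (hζ := hζ) (hgen := hgen) v
  rw [← h]
  unfold outA insA
  congr 2

/-- the number of bad vertices -/
theorem bad_card (hG : G.Proper) (hn : ‖ζ‖ = 1) :
    ((bad (cfg G ζ hζ hgen) (XS G)).card : ℝ) ≤
      (G.unbalanced.card : ℝ) + 300 * G.totalImbalance ^ 2 := by
  set C := cfg G ζ hζ hgen with hC
  let P : Finset {v : ℂ // v ∈ G.V} := Finset.univ.filter (fun v => G.imb v.1 ≠ 0)
  let Q : Finset {v : ℂ // v ∈ G.V} := Finset.univ.filter (fun v => 1 / 100 ≤ C.J v)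
  have h1 : bad C (XS G) ⊆ P ∪ Q := by
    intro v hv
    obtain ⟨-, hvX, hvG⟩ := Finset.mem_filter.1 hv
    rw [Finset.mem_union]
    by_contra hcon
    push Not at hcon
    obtain ⟨h2, h3⟩ := hcon
    have h4 : G.imb v.1 = 0 := by
      by_contra h
      exact h2 (Finset.mem_filter.2 ⟨Finset.mem_univ _, h⟩)
    have h5 : C.J v < 1 / 100 := by
      by_contra h
      exact h3 (Finset.mem_filter.2 ⟨Finset.mem_univ _, not_lt.1 h⟩)
    apply hvG
    refine ⟨?_, ?_, h5, ?_⟩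
    · rw [hC, Dx_eq, h4]; simp
    · rw [hC, Dy_eq, h4]; simp
    · rw [hC, card_outA_insA]
      exact hG.2 v.1 v.2 h4
  have h2 : P.card ≤ G.unbalanced.card := by
    refine Finset.card_le_card_of_injOn Subtype.val ?_ (fun a _ b _ h => Subtype.ext h)
    intro v hv
    exact Finset.mem_filter.2 ⟨v.2, (Finset.mem_filter.1 hv).2⟩
  have h3 : (Q.card : ℝ) ≤ 300 * G.totalImbalance ^ 2 := by
    have h4 := sum_J_bound (G := G) (hζ := hζ) (hgen := hgen) hn
    have h5 : (Q.card : ℝ) * (1 / 100) ≤ ∑ v ∈ Q, C.J v := by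
      rw [← nsmul_eq_mul]
      exact Finset.card_nsmul_le_sum _ _ _ fun v hv => (Finset.mem_filter.1 hv).2
    have h6 : ∑ v ∈ Q, C.J v ≤ ∑ v, C.J v :=
      Finset.sum_le_sum_of_subset_of_nonneg (Finset.subset_univ _) (fun v _ _ => C.J_nonneg v)
    linarith
  have h4 := (Finset.card_le_card h1).trans (Finset.card_union_le _ _)
  have h5 : ((bad C (XS G)).card : ℝ) ≤ (P.card : ℝ) + (Q.card : ℝ) := by exact_mod_cast h4
  have h6 : (P.card : ℝ) ≤ (G.unbalanced.card : ℝ) := by exact_mod_cast h2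
  linarith

/-- bound for the number of edges crossing a line at a large angle -/
def mI (I : ℝ) : ℕ := ⌈5 * I⌉₊

/-- number of classes -/
def BI (n : ℕ) (I : ℝ) : ℕ := n + ⌈(300 + 81 * ((mI I : ℝ) + 1)) * I ^ 2⌉₊ + 1

/-- the vertices counted in one direction -/
def dirSet (G : GeodesicNet) (ζ : ℂ) : Finset ℂ :=
  (G.balanced \ G.crossings).filter (fun v => ∃ w ∈ G.neighbors v,
    |(ζ * w).re - (ζ * v).re| ≤ |(ζ * w).im - (ζ * v).im|)

theorem dirSet_card (hG : G.Proper) (hn : ‖ζ‖ = 1)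
    (hgen : ∀ a ∈ G.V, ∀ b ∈ G.V, (ζ * a).im = (ζ * b).im → a = b) {I : ℝ}
    (hI : G.totalImbalance ≤ I) :
    (dirSet G ζ).card ≤ BI G.unbalanced.card I * (Nn (mI I) + 2) := by
  have hζ : ζ ≠ 0 := by rintro rfl; simp at hn
  set C := cfg G ζ hζ hgen with hC
  have hI0 : 0 ≤ G.totalImbalance := Finset.sum_nonneg fun _ _ => norm_nonneg _
  have hI0' : 0 ≤ I := hI0.trans hI
  obtain ⟨hTx, hTy⟩ := T_le (G := G) (hζ := hζ) (hgen := hgen) hn
  rw [← hC] at hTx hTy
  have hTx0 : 0 ≤ C.Tx := Finset.sum_nonneg fun _ _ => abs_nonneg _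
  have hTy0 : 0 ≤ C.Ty := Finset.sum_nonneg fun _ _ => abs_nonneg _
  have hX : ∀ v ∈ XS G, Crs C v := fun v hv => crs_of_crossing (Finset.mem_filter.1 hv).2
  have hu : IsUnit' C := fun a b h => unit hn a b h
  have hm : 5 * C.Ty ≤ (mI I : ℝ) := by
    refine le_trans ?_ (Nat.le_ceil _)
    linarith
  have hbad := bad_card (hζ := hζ) (hgen := hgen) hG hn
  rw [← hC] at hbad
  have hII : G.totalImbalance ^ 2 ≤ I ^ 2 := by nlinarith
  have hTT : C.Tx * C.Ty ≤ I ^ 2 := by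
    have := mul_le_mul (hTx.trans hI) (hTy.trans hI) hTy0 hI0'
    nlinarith
  have hceil : (300 + 81 * ((mI I : ℝ) + 1)) * I ^ 2 ≤
      (⌈(300 + 81 * ((mI I : ℝ) + 1)) * I ^ 2⌉₊ : ℝ) := Nat.le_ceil _
  have hBr : ((BI G.unbalanced.card I : ℕ) : ℝ) = (G.unbalanced.card : ℝ) +
      (⌈(300 + 81 * ((mI I : ℝ) + 1)) * I ^ 2⌉₊ : ℝ) + 1 := by
    unfold BI; push_cast; ring
  have hm0 : (0:ℝ) ≤ (mI I : ℝ) := by positivity
  have hB : ((bad C (XS G)).card : ℝ) + 81 * ((mI I : ℝ) + 1) * (C.Tx * C.Ty) <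
      (BI G.unbalanced.card I : ℝ) := by
    rw [hBr]
    have : 81 * ((mI I : ℝ) + 1) * (C.Tx * C.Ty) ≤ 81 * ((mI I : ℝ) + 1) * I ^ 2 :=
      mul_le_mul_of_nonneg_left hTT (by positivity)
    nlinarith
  have hbadB : (bad C (XS G)).card ≤ BI G.unbalanced.card I := by
    have h1 : 0 ≤ 81 * ((mI I : ℝ) + 1) * (C.Tx * C.Ty) := by positivity
    have : ((bad C (XS G)).card : ℝ) ≤ (BI G.unbalanced.card I : ℝ) := by linarith
    exact_mod_cast this
  have hnear := near_card hu hX (mI I) hm (BI G.unbalanced.card I) hB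
  -- every vertex of `dirSet` is bad or near
  have hsub : dirSet G ζ ⊆ (bad C (XS G) ∪ near C (XS G)).image Subtype.val := by
    intro v hv
    obtain ⟨h1, w, hw, hwv⟩ := Finset.mem_filter.1 hv
    obtain ⟨h2, h3⟩ := Finset.mem_sdiff.1 h1
    obtain ⟨hvV, -⟩ := Finset.mem_filter.1 h2
    obtain ⟨hwV, hadj⟩ := Finset.mem_filter.1 hw
    rw [Finset.mem_image]
    refine ⟨⟨v, hvV⟩, ?_, rfl⟩
    have hvX : (⟨v, hvV⟩ : {v : ℂ // v ∈ G.V}) ∉ XS G := fun h => h3 (Finset.mem_filter.1 h).2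
    rw [Finset.mem_union]
    by_cases hg : Good C ⟨v, hvV⟩
    · right
      refine Finset.mem_filter.2 ⟨Finset.mem_univ _, hvX, hg, ?_⟩
      have hne : (ζ * v).im ≠ (ζ * w).im := fun h =>
        (G.edge_ends _ _ hadj).2.2 (hgen _ hvV _ hwV h)
      rcases lt_or_gt_of_ne hne with hlt | hlt
      · refine ⟨(⟨v, hvV⟩, ⟨w, hwV⟩), ⟨(W_ne G ζ _ _).2 ⟨hadj, hlt⟩, Or.inl rfl⟩, ?_⟩
        change |((ζ * w).re - (ζ * v).re) / ((ζ * w).im - (ζ * v).im)| ≤ 1
        rw [abs_div]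
        exact div_le_one_of_le₀ hwv (abs_nonneg _)
      · refine ⟨(⟨w, hwV⟩, ⟨v, hvV⟩), ⟨(W_ne G ζ _ _).2 ⟨G.symm _ _ hadj, hlt⟩, Or.inr rfl⟩, ?_⟩
        change |((ζ * v).re - (ζ * w).re) / ((ζ * v).im - (ζ * w).im)| ≤ 1
        rw [abs_div, abs_sub_comm, abs_sub_comm (ζ * v).im]
        exact div_le_one_of_le₀ hwv (abs_nonneg _)
    · left
      exact Finset.mem_filter.2 ⟨Finset.mem_univ _, hvX, hg⟩
  have h1 := (Finset.card_le_card hsub).trans
    (Finset.card_image_le.trans (Finset.card_union_le _ _))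
  calc (dirSet G ζ).card ≤ _ := h1
    _ ≤ BI G.unbalanced.card I + BI G.unbalanced.card I * (Nn (mI I) + 1) :=
        add_le_add hbadB hnear
    _ = BI G.unbalanced.card I * (Nn (mI I) + 2) := by ring

/-- bound for the number of balanced vertices that are not crossings -/
def EI (n : ℕ) (I : ℝ) : ℕ := 2 * (BI n I * (Nn (mI I) + 2))

theorem noncrossing_card (hG : G.Proper) {I : ℝ} (hI : G.totalImbalance ≤ I) :
    (G.balanced \ G.crossings).card ≤ EI G.unbalanced.card I := by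
  obtain ⟨ζ, hn, hgen⟩ := exists_generic (G.V ∪ G.V.image (fun z => Complex.I * z))
  have hgen1 : ∀ a ∈ G.V, ∀ b ∈ G.V, (ζ * a).im = (ζ * b).im → a = b := fun a ha b hb h =>
    hgen a (Finset.mem_union_left _ ha) b (Finset.mem_union_left _ hb) h
  have hgen2 : ∀ a ∈ G.V, ∀ b ∈ G.V, (ζ * Complex.I * a).im = (ζ * Complex.I * b).im →
      a = b := by
    intro a ha b hb h
    rw [mul_assoc, mul_assoc] at h
    have := hgen (Complex.I * a) (Finset.mem_union_right _ (Finset.mem_image_of_mem _ ha))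
      (Complex.I * b) (Finset.mem_union_right _ (Finset.mem_image_of_mem _ hb)) h
    exact mul_left_cancel₀ Complex.I_ne_zero this
  have hn2 : ‖ζ * Complex.I‖ = 1 := by rw [norm_mul, hn, Complex.norm_I, mul_one]
  have h1 := dirSet_card hG hn hgen1 hI
  have h2 := dirSet_card hG hn2 hgen2 hI
  have h3 : G.balanced \ G.crossings ⊆ dirSet G ζ ∪ dirSet G (ζ * Complex.I) := by
    intro v hv
    obtain ⟨h4, h5⟩ := Finset.mem_sdiff.1 hv
    obtain ⟨hvV, hv0⟩ := Finset.mem_filter.1 h4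
    have hdeg := hG.2 v hvV hv0
    have hne : (G.neighbors v).Nonempty := by rw [← Finset.card_pos]; omega
    obtain ⟨w, hw⟩ := hne
    rw [Finset.mem_union]
    rcases le_total |(ζ * w).re - (ζ * v).re| |(ζ * w).im - (ζ * v).im| with h | h
    · exact Or.inl (Finset.mem_filter.2 ⟨hv, w, hw, h⟩)
    · refine Or.inr (Finset.mem_filter.2 ⟨hv, w, hw, ?_⟩)
      have e : ∀ z : ℂ, (ζ * Complex.I * z).re = -(ζ * z).im ∧
          (ζ * Complex.I * z).im = (ζ * z).re := by
        intro z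
        have : ζ * Complex.I * z = (ζ * z) * Complex.I := by ring
        rw [this]
        simp
      rw [(e w).1, (e w).2, (e v).1, (e v).2]
      have e2 : -(ζ * w).im - -(ζ * v).im = -((ζ * w).im - (ζ * v).im) := by ring
      rw [e2, abs_neg]
      exact h
  have h4 := (Finset.card_le_card h3).trans (Finset.card_union_le _ _)
  unfold EI
  omega

/-- the bound -/
def F (n : ℕ) (I : ℝ) : ℕ := EI n I + ⌈(4 * I * ((n : ℝ) + (EI n I : ℝ))) ^ 2⌉₊

theorem balanced_card_le (hG : G.Proper) {I : ℝ} (hI : G.totalImbalance ≤ I) :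
    G.balanced.card ≤ F G.unbalanced.card I := by
  have hI0 : 0 ≤ G.totalImbalance := Finset.sum_nonneg fun _ _ => norm_nonneg _
  have h1 := noncrossing_card hG hI
  have h5 : G.V \ G.crossings ⊆ G.unbalanced ∪ (G.balanced \ G.crossings) := by
    intro v hv
    obtain ⟨hvV, hvc⟩ := Finset.mem_sdiff.1 hv
    rw [Finset.mem_union]
    by_cases h0 : G.imb v = 0
    · exact Or.inr (Finset.mem_sdiff.2 ⟨Finset.mem_filter.2 ⟨hvV, h0⟩, hvc⟩)
    · exact Or.inl (Finset.mem_filter.2 ⟨hvV, h0⟩)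
  have h6 : ((G.V \ G.crossings).card : ℝ) ≤ (G.unbalanced.card : ℝ) +
      (EI G.unbalanced.card I : ℝ) := by
    have h7 := (Finset.card_le_card h5).trans (Finset.card_union_le _ _)
    have h8 : (G.V \ G.crossings).card ≤ G.unbalanced.card + EI G.unbalanced.card I := by omega
    exact_mod_cast h8
  have h10 : ((ends G).card : ℝ) ≤ 4 * I * ((G.unbalanced.card : ℝ) +
      (EI G.unbalanced.card I : ℝ)) := by
    refine (ends_card_le G).trans ?_
    have h11 : (0:ℝ) ≤ ((G.V \ G.crossings).card : ℝ) := by positivity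
    have h12 : 4 * G.totalImbalance ≤ 4 * I := by linarith
    calc 4 * G.totalImbalance * ((G.V \ G.crossings).card : ℝ)
        ≤ 4 * I * ((G.V \ G.crossings).card : ℝ) := mul_le_mul_of_nonneg_right h12 h11
      _ ≤ _ := mul_le_mul_of_nonneg_left h6 (by linarith)
  have h13 : G.crossings.card ≤ ⌈(4 * I * ((G.unbalanced.card : ℝ) +
      (EI G.unbalanced.card I : ℝ))) ^ 2⌉₊ := by
    have h14 : ((G.crossings.card : ℕ) : ℝ) ≤ (4 * I * ((G.unbalanced.card : ℝ) +
      (EI G.unbalanced.card I : ℝ))) ^ 2 := by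
      have h9 : (G.crossings.card : ℝ) ≤ ((ends G).card : ℝ) ^ 2 := by
        exact_mod_cast crossings_card_le G
      exact h9.trans (pow_le_pow_left₀ (by positivity) h10 2)
    exact_mod_cast h14.trans (Nat.le_ceil _)
  have h12 : G.balanced ⊆ (G.balanced \ G.crossings) ∪ G.crossings := by
    intro v hv
    rw [Finset.mem_union]
    by_cases hc : v ∈ G.crossings
    · exact Or.inr hc
    · exact Or.inl (Finset.mem_sdiff.2 ⟨hv, hc⟩)
  have h15 := (Finset.card_le_card h12).trans (Finset.card_union_le _ _)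
  unfold F
  omega

/-- **Gromov's question on planar geodesic nets, answered affirmatively.** There is a function
`F` of a natural number and a real number such that every geodesic net in the Euclidean plane
(all edges of weight one) with `n` unbalanced vertices and total imbalance at most `I` has at most
`F n I` balanced vertices. -/
theorem result : ∃ F : ℕ → ℝ → ℕ, ∀ G : GeodesicNet, G.Proper → ∀ (n : ℕ) (I : ℝ),
    G.unbalanced.card = n → G.totalImbalance ≤ I → G.balanced.card ≤ F n I :=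
  ⟨F, fun _ hG _ _ hn hI => hn ▸ balanced_card_le hG hI⟩

end Pool.Agent.Results.MP_b48dd4_gt.GromovBound
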